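import Mathlib

set_option autoImplicit false
open Finset
open scoped Classical

namespace Pool.Agent.Results.MP_7bf775_co.LogSq

variable {n : ℕ}

/-- Capped ordered graphs. -/
def Capped (G : SimpleGraph (Fin n)) : Prop :=
  ∀ i j k l : Fin n, i < j → j < k → k < l → G.Adj i k → G.Adj j l → G.Adj i l

/-- The pairs `(A t, B t)` form a biclique cover of `G`. -/
def IsCover (G : SimpleGraph (Fin n)) {m : ℕ} (A B : Fin m → Finset (Fin n)) : Prop :=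
  (∀ t, (A t).Nonempty ∧ (B t).Nonempty ∧ Disjoint (A t) (B t) ∧ ∀ a ∈ A t, ∀ b ∈ B t, G.Adj a b) ∧
    ∀ u v, G.Adj u v → ∃ t, u ∈ A t ∧ v ∈ B t ∨ v ∈ A t ∧ u ∈ B t

theorem lab (G : SimpleGraph (Fin n)) {K : Type} (I J : Finset (ℕ × K))
    (h1 : ∀ (a b : Fin n) k, (a.val, k) ∈ I → (b.val, k) ∈ J → G.Adj a b)
    (h2 : ∀ a b : Fin n, a < b → G.Adj a b → ∃ k, (a.val, k) ∈ I ∧ (b.val, k) ∈ J) :
    ∃ (m : ℕ) (A B : Fin m → Finset (Fin n)), IsCover G A B ∧ ∑ t, (#(A t) + #(B t)) ≤ #I + #J := by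
  let F : Finset (ℕ × K) → K → Finset (Fin n) := fun I k => {a | (a.val, k) ∈ I}
  let S := {k ∈ I.image Prod.snd | (F I k).Nonempty ∧ (F J k).Nonempty}
  have c : ∀ I, ∑ k ∈ S, #(F I k) ≤ #I := fun I => by
    refine (sum_le_sum fun k _ => ?_).trans ((sum_card_fiberwise_eq_card_filter I S Prod.snd).trans_le
      (card_filter_le _ _))
    exact card_le_card_of_injOn (fun a => (a.val, k)) (fun a ha => by simpa [F] using ha)
      fun a _ b _ e => Fin.ext (congrArg Prod.fst e)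
  have d : ∀ k, ∀ a ∈ F I k, ∀ b ∈ F J k, G.Adj a b := fun k a ha b hb =>
    h1 a b k (mem_filter.mp ha).2 (mem_filter.mp hb).2
  have e : ∀ a b : Fin n, a < b → G.Adj a b → ∃ t, a ∈ F I (S.equivFin.symm t) ∧ b ∈ F J (S.equivFin.symm t) :=
    fun a b x y => by
    obtain ⟨k, u, v⟩ := h2 a b x y
    exact ⟨S.equivFin ⟨k, mem_filter.mpr ⟨mem_image.mpr ⟨_, u, rfl⟩, ⟨a, by simpa [F]⟩, ⟨b, by simpa [F]⟩⟩⟩,
      by simpa [F], by simpa [F]⟩
  refine ⟨#S, fun t => F I (S.equivFin.symm t), fun t => F J (S.equivFin.symm t), ⟨fun t => ?_, fun u v h => ?_⟩, ?_⟩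
  · have := (mem_filter.mp (S.equivFin.symm t).2).2
    exact ⟨this.1, this.2, disjoint_left.mpr fun a x y => (d _ a x a y).ne rfl, d _⟩
  · rcases lt_or_gt_of_ne h.ne with x | x
    · exact (e u v x h).imp fun _ => Or.inl
    · exact (e v u x h.symm).imp fun _ => Or.inr
  · rw [S.equivFin.symm.sum_comp fun k => #(F I k) + #(F J k), sum_coe_sort S fun k => #(F I k) + #(F J k),
      sum_add_distrib]
    exact add_le_add (c I) (c J)

def up (p x : ℕ) : ℕ := (x / 2 ^ p + 1) * 2 ^ p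
def dn (p x : ℕ) : ℕ := x / 2 ^ p * 2 ^ p
def Sep (p x y : ℕ) : Prop := x / 2 ^ (p + 1) = y / 2 ^ (p + 1) ∧ x / 2 ^ p < y / 2 ^ p
noncomputable def lv (x y : ℕ) : ℕ := Classical.epsilon fun p => Sep p x y

theorem u1 {p x y : ℕ} : up p x ≤ y ↔ x / 2 ^ p < y / 2 ^ p := (Nat.le_div_iff_mul_le (by positivity)).symm
theorem u2 {p x y : ℕ} : y < dn p x ↔ y / 2 ^ p < x / 2 ^ p := (Nat.div_lt_iff_lt_mul (by positivity)).symm
theorem u3 (p x : ℕ) : x < up p x := not_le.mp fun h => lt_irrefl _ (u1.mp h)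
theorem u4 (p x : ℕ) : dn p x ≤ x := Nat.div_mul_le_self _ _
theorem hf (p x : ℕ) : x / 2 ^ (p + 1) = x / 2 ^ p / 2 := by rw [Nat.div_div_eq_div_mul, pow_succ]
theorem mo (p : ℕ) {x y : ℕ} (h : x ≤ y) : x / 2 ^ p ≤ y / 2 ^ p := Nat.div_le_div_right h

theorem eq {p q x y : ℕ} (h : p ≤ q) (e : x / 2 ^ p = y / 2 ^ p) : x / 2 ^ q = y / 2 ^ q := by
  induction h with
  | refl => exact e
  | step _ ih => rw [hf, hf, ih]

theorem s1 {p x y : ℕ} (h : Sep p x y) : up p x = dn p y ∧ up (p + 1) x = up (p + 1) y ∧ dn (p + 1) x = dn (p + 1) y := by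
  obtain ⟨a, b⟩ := h
  refine ⟨?_, by rw [up, up, a], by rw [dn, dn, a]⟩
  rw [hf, hf] at a
  rw [up, dn, show x / 2 ^ p + 1 = y / 2 ^ p by omega]

theorem s2 {p x y : ℕ} (h : Sep p x y) : lv x y = p := by
  have g : Sep (lv x y) x y := Classical.epsilon_spec (p := fun p => Sep p x y) ⟨p, h⟩
  rcases lt_trichotomy (lv x y) p with c | c | c
  exacts [(h.2.ne (eq c g.1)).elim, c, (g.2.ne (eq c h.1)).elim]

theorem s3 {x y : ℕ} (h : x < y) : ∀ p, x / 2 ^ p = y / 2 ^ p → ∃ q < p, Sep q x y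
  | 0, e => by simp at e; omega
  | p + 1, e => by
    rcases (mo p h.le).eq_or_lt with c | c
    · exact (s3 h p c).imp fun q a => ⟨by omega, a.2⟩
    · exact ⟨p, by omega, e, c⟩

theorem s4 {p q x : ℕ} (h : p ≤ q) : up p x ≤ up q x ∧ dn q x ≤ dn p x := by
  have a : ∀ u, u * 2 ^ q / 2 ^ p * 2 ^ p = u * 2 ^ q := fun u =>
    Nat.div_mul_cancel (Dvd.dvd.mul_left (pow_dvd_pow 2 h) u)
  refine ⟨u1.mpr (lt_of_le_of_ne (mo p (u3 q x).le) fun e => ?_), ?_⟩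
  · exact (u1.mp le_rfl).ne (eq h e)
  · rw [dn, ← a]; exact Nat.mul_le_mul_right _ (mo p (u4 q x))

abbrev K := (ℕ × ℕ × ℕ) ⊕ (ℕ × ℕ)

variable (E : ℕ → ℕ → Prop)

noncomputable def nx (i c : ℕ) : ℕ := Classical.epsilon fun k => c ≤ k ∧ E i k ∧ ∀ y, c ≤ y → E i y → k ≤ y
noncomputable def pv (l c : ℕ) : ℕ := Classical.epsilon fun j => j < c ∧ E j l ∧ ∀ y, y < c → E y l → y ≤ j

theorem n1 {i c y : ℕ} (h : c ≤ y) (e : E i y) :
    c ≤ nx E i c ∧ E i (nx E i c) ∧ ∀ y, c ≤ y → E i y → nx E i c ≤ y :=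
  have x : ∃ k, c ≤ k ∧ E i k := ⟨y, h, e⟩
  Classical.epsilon_spec (p := fun k => c ≤ k ∧ E i k ∧ ∀ y, c ≤ y → E i y → k ≤ y)
    ⟨Nat.find x, (Nat.find_spec x).1, (Nat.find_spec x).2, fun _ a b => Nat.find_min' x ⟨a, b⟩⟩

theorem n2 {l c y : ℕ} (h : y < c) (e : E y l) :
    pv E l c < c ∧ E (pv E l c) l ∧ ∀ y, y < c → E y l → y ≤ pv E l c := by
  obtain ⟨j, a, b⟩ := exists_max_image {j ∈ range c | E j l} id ⟨y, by simp [*]⟩
  simp only [mem_filter, mem_range, id] at a b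
  exact Classical.epsilon_spec (p := fun j => j < c ∧ E j l ∧ ∀ y, y < c → E y l → y ≤ j)
    ⟨j, a.1, a.2, fun _ u v => b _ ⟨u, v⟩⟩

def VA : ℕ × K → Prop
  | (i, .inl (a, c, b)) => i < a ∧ ∃ k, c ≤ k ∧ k < b ∧ E i k
  | (i, .inr (u, v)) => i = u ∧ E u v

def VB : ℕ × K → Prop
  | (l, .inl (a, c, b)) => b ≤ l ∧ ∃ j, a ≤ j ∧ j < c ∧ E j l
  | (l, .inr (_, v)) => l = v

noncomputable def fA (v s t : ℕ) : Fin 5 → ℕ × K :=
  ![(v, .inr (v, nx E v (up t v))), (pv E v (dn t v), .inr (pv E v (dn t v), v)),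
    (v, .inl (up s v, up (s + 1) v, up t v)),
    (v, .inl (up t v, dn (s + 1) (nx E v (up t v)), up s (nx E v (up t v)))),
    (v, .inl (up s v, up (lv v (nx E v (up (s + 1) v))) v, up t (nx E v (up (s + 1) v))))]

noncomputable def fB (v s t : ℕ) : Fin 5 → ℕ × K :=
  ![(nx E v (up t v), .inr (v, nx E v (up t v))), (v, .inr (pv E v (dn t v), v)),
    (v, .inl (dn s (pv E v (dn t v)), up (s + 1) (pv E v (dn t v)), dn t v)),
    (v, .inl (dn t v, dn (s + 1) v, dn s v)),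
    (v, .inl (dn s (pv E v (dn (t + 1) v)), dn (lv (pv E v (dn (t + 1) v)) v) v, dn t v))]

noncomputable def U (f : ℕ → ℕ → ℕ → Fin 5 → ℕ × K) (V : ℕ × K → Prop) (n h : ℕ) : Finset (ℕ × K) :=
  {x ∈ (range n ×ˢ range h ×ˢ range h ×ˢ univ).image fun y => f y.1 y.2.1 y.2.2.1 y.2.2.2 | V x}

theorem Uc (f : ℕ → ℕ → ℕ → Fin 5 → ℕ × K) (V : ℕ × K → Prop) (n h : ℕ) : #(U f V n h) ≤ 5 * n * h ^ 2 :=
  (card_filter_le _ _).trans (card_image_le.trans_eq (by simp; ring))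

theorem Um {f : ℕ → ℕ → ℕ → Fin 5 → ℕ × K} {V : ℕ × K → Prop} {n h : ℕ} {x : ℕ × K} (v s t : ℕ) (w : Fin 5)
    (a : v < n) (b : s < h) (c : t < h) (d : f v s t w = x) (e : V x) : x ∈ U f V n h :=
  mem_filter.mpr ⟨mem_image.mpr ⟨(v, s, t, w), by simp [*], d⟩, e⟩

theorem cov {h i l : ℕ} (hn : n ≤ 2 ^ h) (il : i < l) (ln : l < n) (e : E i l) :
    ∃ k, (i, k) ∈ U (fA E) (VA E) n h ∧ (l, k) ∈ U (fB E) (VB E) n h := by
  obtain ⟨t, th, ht⟩ := s3 il h (by rw [Nat.div_eq_of_lt (by omega), Nat.div_eq_of_lt (by omega)])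
  have m := (s1 ht).1
  have m1 := u3 t i
  have m2 := u4 t l
  obtain ⟨k1, k2, k3⟩ := n1 E (m ▸ m2 : up t i ≤ l) e
  obtain ⟨j1, j2, j3⟩ := n2 E (m ▸ m1 : i < dn t l) e
  rcases (k3 l (by omega) e).eq_or_lt with kl | kl
  · exact ⟨.inr (i, l), Um i t t 0 (by omega) th th (by simp [fA, kl]) ⟨rfl, e⟩,
      Um i t t 0 (by omega) th th (by simp [fB, kl]) rfl⟩
  rcases (j3 i (by omega) e).eq_or_lt with ij | ij
  · exact ⟨.inr (i, l), Um l t t 1 ln th th (by simp [fA, ← ij]) ⟨rfl, e⟩, Um l t t 1 ln th th (by simp [fB, ← ij]) rfl⟩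
  obtain ⟨k, hk⟩ : ∃ k, k = nx E i (up t i) := ⟨_, rfl⟩
  obtain ⟨j, hj⟩ : ∃ j, j = pv E l (dn t l) := ⟨_, rfl⟩
  rw [← hk] at k1 k2 k3 kl
  rw [← hj] at j1 j2 j3 ij
  have e1 : i / 2 ^ t = j / 2 ^ t := le_antisymm (mo t ij.le) (not_lt.mp fun c => (u1.mpr c).not_gt (by omega))
  have e2 : k / 2 ^ t = l / 2 ^ t := le_antisymm (mo t kl.le) (not_lt.mp fun c => (u2.mpr c).not_ge (by omega))
  obtain ⟨s, st, hs⟩ := s3 ij t e1
  obtain ⟨q, qt, hq⟩ := s3 kl t e2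
  obtain ⟨a1, a2, a3⟩ := s1 hs
  obtain ⟨b1, b2, b3⟩ := s1 hq
  have := u3 s i; have := u4 s j; have := u3 (s + 1) j; have := u3 q k; have := u4 q l; have := u4 (q + 1) k
  have c1 := (s4 (x := i) (show s + 1 ≤ t from st)).1
  have c2 := (s4 (x := l) (show q + 1 ≤ t from qt)).2
  by_cases x : ∃ y, up (s + 1) i ≤ y ∧ y < up t i ∧ E i y
  · exact ⟨.inl (up s i, up (s + 1) i, up t i), Um i s t 2 (by omega) (by omega) th rfl ⟨by omega, x⟩,
      Um l s t 2 ln (by omega) th (by simp [fB, ← hj, a1, a2, m]) ⟨by omega, j, by omega, by omega, j2⟩⟩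
  by_cases y : ∃ y, up t i ≤ y ∧ y < dn (q + 1) k ∧ E y l
  · exact ⟨.inl (up t i, dn (q + 1) k, up q k), Um i q t 3 (by omega) (by omega) th (by simp [fA, ← hk])
      ⟨by omega, k, by omega, by omega, k2⟩, Um l q t 3 ln (by omega) th (by simp [fB, b1, b3, m]) ⟨by omega, y⟩⟩
  have g1 : nx E i (up (s + 1) i) = k := by
    obtain ⟨r1, r2, r3⟩ := n1 E (c1.trans k1) k2
    exact le_antisymm (r3 k (by omega) k2) (k3 _ (not_lt.mp fun c => x ⟨_, r1, c, r2⟩) r2)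
  have g2 : pv E l (dn (q + 1) l) = j := by
    obtain ⟨r1, r2, r3⟩ := n2 E (j1.trans_le c2) j2
    exact le_antisymm (j3 _ (not_le.mp fun c => y ⟨_, m ▸ c, b3 ▸ r1, r2⟩) r2) (r3 j (by omega) j2)
  have g3 : lv i k = t := s2 ⟨ht.1.trans (eq (Nat.le_succ t) e2).symm, e2 ▸ ht.2⟩
  have g4 : lv j l = t := s2 ⟨(eq (Nat.le_succ t) e1).symm.trans ht.1, e1 ▸ ht.2⟩
  exact ⟨.inl (up s i, up t i, up q k), Um i s q 4 (by omega) (by omega) (by omega) (by simp [fA, g1, g3])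
    ⟨by omega, k, k1, by omega, k2⟩, Um l s q 4 ln (by omega) (by omega) (by simp [fB, g2, g4, a1, b1, m])
    ⟨by omega, j, by omega, by omega, j2⟩⟩

theorem result : ∃ C : ℝ, ∀ n, 2 ≤ n → ∀ G : SimpleGraph (Fin n), Capped G →
    ∃ (m : ℕ) (A B : Fin m → Finset (Fin n)), IsCover G A B ∧
      ((∑ t, (#(A t) + #(B t)) : ℕ) : ℝ) ≤ C * n * Real.logb 2 n ^ 2 := by
  refine ⟨40, fun n hn G hG => ?_⟩
  let E := fun x y => ∃ (a : x < n) (b : y < n), G.Adj ⟨x, a⟩ ⟨y, b⟩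
  obtain ⟨m, A, B, h1, h2⟩ := lab G (U (fA E) (VA E) n (Nat.clog 2 n)) (U (fB E) (VB E) n (Nat.clog 2 n))
    (fun a b k x y => by
      have x := (mem_filter.mp x).2
      have y := (mem_filter.mp y).2
      rcases k with ⟨u, c, v⟩ | ⟨u, v⟩
      · obtain ⟨x1, k, x2, x3, _, x4, x5⟩ := x
        obtain ⟨y1, j, y2, y3, y4, _, y5⟩ := y
        exact hG a ⟨j, y4⟩ ⟨k, x4⟩ b (x1.trans_le y2) (y3.trans_le x2) (x3.trans_le y1) x5 y5
      · obtain ⟨rfl, _, _, z⟩ := x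
        obtain rfl : b.val = v := y
        exact z)
    fun a b x y => cov E (Nat.le_pow_clog one_lt_two n) x b.2 ⟨a.2, b.2, y⟩
  refine ⟨m, A, B, h1, (Nat.cast_le.mpr (h2.trans (add_le_add (Uc _ _ _ _) (Uc _ _ _ _)))).trans ?_⟩
  have n2 : (2 : ℝ) ≤ n := by exact_mod_cast hn
  have l1 : 1 ≤ Real.logb 2 n := by
    rw [Real.le_logb_iff_rpow_le one_lt_two (by linarith)]; simpa
  have l2 : ((Nat.clog 2 n).pred : ℝ) ≤ Real.logb 2 n := by
    rw [Real.le_logb_iff_rpow_le one_lt_two (by linarith), Real.rpow_natCast]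
    exact_mod_cast (Nat.pow_pred_clog_lt_self one_lt_two hn).le
  have l3 : (Nat.clog 2 n : ℝ) ≤ (Nat.clog 2 n).pred + 1 := by norm_cast; simp only [Nat.pred_eq_sub_one]; omega
  have l4 : (Nat.clog 2 n : ℝ) ^ 2 ≤ (2 * Real.logb 2 n) ^ 2 := by gcongr; linarith
  push_cast
  nlinarith

end Pool.Agent.Results.MP_7bf775_co.LogSq
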